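import Mathlib

/-!
# Drawings of graphs in the plane, `siocr` and SEFE

The plane is `ℂ`.  A graph is a simple graph on a vertex type `V`.
-/

set_option autoImplicit false

namespace Pool.Agent.W135.Sefe

/-- `a` is (the set of points of) a simple arc (Jordan arc) in the plane joining `x` and `y`. -/
def IsArc (a : Set ℂ) (x y : ℂ) : Prop :=
  ∃ γ : Path x y, Function.Injective γ ∧ Set.range γ = a

/-- The arcs `a` and `b` cross properly at `z`: in suitable local coordinates around `z` (a
homeomorphism `φ` between a neighbourhood of `z` and an open subset of `ℝ × ℝ`, with `φ z = 0`),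
the arc `a` is the first coordinate axis and the arc `b` is the second coordinate axis. -/
def IsProperCrossing (a b : Set ℂ) (z : ℂ) : Prop :=
  ∃ φ : OpenPartialHomeomorph ℂ (ℝ × ℝ), z ∈ φ.source ∧ φ z = (0, 0) ∧
    ∀ w ∈ φ.source, (w ∈ a ↔ (φ w).2 = 0) ∧ (w ∈ b ↔ (φ w).1 = 0)

/-- A drawing of the graph `G` in the plane: the vertices are distinct points, each edge is a
simple arc joining its two endpoints and passing through no other vertex, any two arcs share
finitely many points, and each common point that is not a vertex is a proper crossing. -/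
structure Drawing {V : Type} (G : SimpleGraph V) where
  /-- the point of a vertex -/
  pt : V → ℂ
  /-- the arc of an edge -/
  arc : Sym2 V → Set ℂ
  pt_inj : Function.Injective pt
  isArc : ∀ u v : V, G.Adj u v → IsArc (arc s(u, v)) (pt u) (pt v)
  avoid : ∀ e ∈ G.edgeSet, ∀ w : V, pt w ∈ arc e → w ∈ e
  finite : ∀ e ∈ G.edgeSet, ∀ f ∈ G.edgeSet, e ≠ f → (arc e ∩ arc f).Finite
  proper : ∀ e ∈ G.edgeSet, ∀ f ∈ G.edgeSet, e ≠ f → ∀ z ∈ arc e ∩ arc f,
    z ∉ Set.range pt → IsProperCrossing (arc e) (arc f) z

variable {V : Type}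

/-- The crossings of `e` and `f` in the drawing `D`: the common points of the two arcs that are
not vertices. -/
def Drawing.crossings {G : SimpleGraph V} (D : Drawing G) (e f : Sym2 V) : Set ℂ :=
  {z | z ∈ D.arc e ∧ z ∈ D.arc f ∧ z ∉ Set.range D.pt}

/-- Two edges are independent if they have no common endpoint. -/
def Independent (e f : Sym2 V) : Prop := ∀ v : V, v ∈ e → v ∉ f

/-- `iocr` of the subdrawing of the subgraph `G'` in the drawing `D`: the number of (unordered)
pairs of independent edges of `G'` whose number of mutual crossings is odd. -/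
noncomputable def Drawing.iocr {G : SimpleGraph V} (D : Drawing G) (G' : SimpleGraph V) : ℕ :=
  {p : Sym2 (Sym2 V) | ∃ e f : Sym2 V, p = s(e, f) ∧ e ∈ G'.edgeSet ∧ f ∈ G'.edgeSet ∧
    Independent e f ∧ Odd (D.crossings e f).ncard}.ncard

/-- `siocr(D) = iocr(D[G₁]) + iocr(D[G₂])` for a drawing `D` of the union of `G₁` and `G₂`. -/
noncomputable def siocrOf (G₁ G₂ : SimpleGraph V) (D : Drawing (G₁ ⊔ G₂)) : ℕ :=
  D.iocr G₁ + D.iocr G₂

/-- `siocr(G₁, G₂)`: the minimum of `siocr(D)` over all drawings `D` of the union. -/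
noncomputable def siocr (G₁ G₂ : SimpleGraph V) : ℕ := sInf (Set.range (siocrOf G₁ G₂))

/-- A drawing is planar if no two edges cross. -/
def Drawing.IsPlanar {G : SimpleGraph V} (D : Drawing G) : Prop :=
  ∀ e ∈ G.edgeSet, ∀ f ∈ G.edgeSet, e ≠ f → D.crossings e f = ∅

/-- The pair `(G₁, G₂)` of graphs (with the same vertex set `V`) admits a simultaneous embedding
with fixed edges: there are planar drawings of `G₁` and of `G₂` in which each vertex is the same
point and each common edge is the same arc. -/
def AdmitsSEFE (G₁ G₂ : SimpleGraph V) : Prop :=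
  ∃ (D₁ : Drawing G₁) (D₂ : Drawing G₂), D₁.IsPlanar ∧ D₂.IsPlanar ∧
    (∀ v, D₁.pt v = D₂.pt v) ∧
    ∀ e, e ∈ G₁.edgeSet → e ∈ G₂.edgeSet → D₁.arc e = D₂.arc e

end Pool.Agent.W135.Sefe
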