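import Pool.Agent.H858R3.TopoGraph
import Pool.Agent.W135.Sefe.Defs

/-!
# Three paths between the centres of a double star
-/

set_option autoImplicit false

namespace Pool.Agent.W135.Sefe

open Complex Set Pool.Agent.H858R3.Lift Pool.Agent.H858R3.Cross

/-- the orientation of three arcs is `π I` or `-π I` -/
theorem S_pm {X Y Z : ℝ → ℂ} (hX : Continuous X) (hY : Continuous Y) (hZ : Continuous Z)
    (hXY0 : X 0 = Y 0) (hXZ0 : X 0 = Z 0) (hXY : Cor X Y) (hYZ : Cor Y Z) (hZX : Cor Z X) :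
    S X Y Z = Real.pi * I ∨ S X Y Z = -(Real.pi * I) := by
  obtain ⟨κ, hκ, h⟩ := triple hX hY hZ hXY0 hXZ0 hXY hYZ hZX
  have h1 := S_exp hX hY hZ hXY0 hXZ0 hXY hYZ hZX
  have h2 : S X Y Z = κ * I := h
  rw [h2] at h1
  rw [h2]
  have h3 : exp (κ * I) = exp (Real.pi * I) := by rw [h1, exp_pi_mul_I]
  rw [exp_eq_exp_iff_exists_int] at h3
  obtain ⟨n, hn⟩ := h3
  have h4 : (κ : ℂ) = (Real.pi * (1 + 2 * n) : ℝ) := by
    have : (κ : ℂ) * I = ((Real.pi * (1 + 2 * n) : ℝ) : ℂ) * I := by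
      rw [hn]; push_cast; ring
    exact mul_right_cancel₀ I_ne_zero this
  have h5 : κ = Real.pi * (1 + 2 * n) := by exact_mod_cast h4
  have hpi := Real.pi_pos
  rw [h5, abs_mul, abs_of_pos hpi] at hκ
  have h6 : |(1 + 2 * n : ℝ)| < 3 := by nlinarith
  rw [abs_lt] at h6
  have h7 : (-2 : ℝ) < n := by linarith
  have h8 : (n : ℝ) < 1 := by linarith
  have h9 : (-2 : ℤ) < n := by exact_mod_cast h7
  have h10 : n < (1 : ℤ) := by exact_mod_cast h8
  have h11 : n = -1 ∨ n = 0 := by omega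
  rcases h11 with rfl | rfl
  · right
    rw [h5]; push_cast; ring
  · left
    rw [h5]; push_cast; ring

/-- there is no cyclic order of three arcs, seen from a fourth one -/
theorem no_cyclic {F A B C : ℝ → ℂ} (cF : Continuous F) (cA : Continuous A) (cB : Continuous B)
    (cC : Continuous C) (hA0 : F 0 = A 0) (hB0 : F 0 = B 0) (hC0 : F 0 = C 0)
    (hFA : Cor F A) (hFB : Cor F B) (hAB : Cor A B) (hBC : Cor B C)
    (hCA : Cor C A) (h1 : S F A B = S F B C) (h2 : S F B C = S F C A) : False := by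
  have k1 := S_cocycle F A B C
  have k2 : S F A C = - S F C A := S_swap F C A
  have k3 := S_pm cF cA cB hA0 hB0 hFA hAB hFB.symm
  have k4 := S_pm cA cB cC (hA0.symm.trans hB0) (hA0.symm.trans hC0) hAB hBC hCA
  have k5 : 3 * S F A B = S A B C := by
    rw [k2] at k1
    linear_combination k1 + 2 * h1 + h2
  have hpi := Real.pi_pos
  rw [← k5] at k4
  have hne : ((Real.pi : ℂ) * I) ≠ 0 := mul_ne_zero (by exact_mod_cast hpi.ne') I_ne_zero
  rcases k3 with k3 | k3 <;> rcases k4 with k4 | k4 <;> rw [k3] at k4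
  · apply hne; linear_combination (1 / 2 : ℂ) * k4
  · apply hne; linear_combination (1 / 4 : ℂ) * k4
  · apply hne; linear_combination (-1 / 4 : ℂ) * k4
  · apply hne; linear_combination (-1 / 2 : ℂ) * k4

/-- the concatenation of two arcs -/
noncomputable def cat (X Z : ℝ → ℂ) : ℝ → ℂ := fun t => if t ≤ 1 / 2 then X (2 * t) else Z (2 * t - 1)

theorem cat_cont {X Z : ℝ → ℂ} (hX : Continuous X) (hZ : Continuous Z) (h : X 1 = Z 0) :
    Continuous (cat X Z) := by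
  unfold cat
  apply Continuous.if_le (by fun_prop) (by fun_prop) continuous_id continuous_const
  intro x hx
  have hx' : x = 1 / 2 := hx
  subst hx'
  norm_num
  exact h

theorem cat_zero (X Z : ℝ → ℂ) : cat X Z 0 = X 0 := by simp [cat]

theorem cat_one (X Z : ℝ → ℂ) : cat X Z 1 = Z 1 := by
  unfold cat
  rw [if_neg (by norm_num)]
  norm_num

theorem cat_mem {X Z : ℝ → ℂ} (t : ℝ) : (∃ s, cat X Z t = X s ∧ (s ≤ 0 → t ≤ 0)) ∨
    (∃ s, cat X Z t = Z s ∧ 0 < s ∧ 0 < t) := by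
  unfold cat
  split_ifs with h
  · exact Or.inl ⟨2 * t, rfl, fun h => by linarith⟩
  · push Not at h
    exact Or.inr ⟨2 * t - 1, rfl, by linarith, by linarith⟩

theorem clamp_clamp (t : ℝ) : max 0 (min (max 0 (min t 1)) 1) = max 0 (min t 1) := by
  rw [min_eq_left (max_le zero_le_one (min_le_right _ _)), max_eq_right (le_max_left _ _)]

theorem clamp_nonneg (t : ℝ) : 0 ≤ max 0 (min t 1) := le_max_left _ _

theorem clamp_le_one (t : ℝ) : max 0 (min t 1) ≤ 1 := max_le zero_le_one (min_le_right _ _)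

/-- the relation between the orientations at the two ends of three paths, the first of which is
an arc `W` and the others of which consist of three arcs each -/
theorem theta_star {W X₁ X₂ Z₁ Z₂ Y₁ Y₂ : ℝ → ℂ} (cW : Continuous W) (cX₁ : Continuous X₁)
    (cX₂ : Continuous X₂) (cZ₁ : Continuous Z₁) (cZ₂ : Continuous Z₂) (cY₁ : Continuous Y₁)
    (cY₂ : Continuous Y₂) (hX₁0 : W 0 = X₁ 0) (hX₂0 : W 0 = X₂ 0) (hZ₁0 : X₁ 1 = Z₁ 0)
    (hZ₂0 : X₂ 1 = Z₂ 0) (hY₁0 : W 1 = Y₁ 0) (hY₂0 : W 1 = Y₂ 0) (hY₁1 : Z₁ 1 = Y₁ 1)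
    (hY₂1 : Z₂ 1 = Y₂ 1) (clX₁ : ∀ t, X₁ (max 0 (min t 1)) = X₁ t)
    (clX₂ : ∀ t, X₂ (max 0 (min t 1)) = X₂ t)
    (hWX₁ : Cor W X₁) (hWX₂ : Cor W X₂) (hWY₁ : ∀ s t, W s = Y₁ t → 1 ≤ s)
    (hWY₂ : ∀ s t, W s = Y₂ t → 1 ≤ s) (hWZ₁ : ∀ s t, W s ≠ Z₁ t) (hWZ₂ : ∀ s t, W s ≠ Z₂ t)
    (hXX : Cor X₁ X₂) (hX₁Z₂ : ∀ s t, X₁ s ≠ Z₂ t) (hX₂Z₁ : ∀ s t, X₂ s ≠ Z₁ t)
    (hX₁Y₂ : ∀ s t, X₁ s ≠ Y₂ t) (hX₂Y₁ : ∀ s t, X₂ s ≠ Y₁ t) (hZZ : ∀ s t, Z₁ s ≠ Z₂ t)
    (hZ₁Y₂ : ∀ s t, Z₁ s ≠ Y₂ t) (hZ₂Y₁ : ∀ s t, Z₂ s ≠ Y₁ t) :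
    S (tr W (1 / 2)) X₁ X₂ = - S (tr (fun t => W (1 - t)) (1 / 2)) Y₁ Y₂ := by
  have cW' : Continuous fun t : ℝ => W (1 - t) := by fun_prop
  have ce₁ := tr_cont cW (1 / 2)
  have ce₂ := cat_cont cX₁ cZ₁ hZ₁0
  have ce₃ := cat_cont cX₂ cZ₂ hZ₂0
  have cf₁ := tr_cont cW' (1 / 2)
  have key := theta ce₁ ce₂ ce₃ cf₁ cY₁ cY₂
    (by rw [tr_zero, cat_zero]; exact hX₁0) (by rw [tr_zero, cat_zero]; exact hX₂0)
    (by rw [tr_zero]; simpa using hY₁0) (by rw [tr_zero]; simpa using hY₂0)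
    (by rw [tr_one, tr_one]; norm_num)
    (by rw [cat_one]; exact hY₁1) (by rw [cat_one]; exact hY₂1)
    (by
      intro s t h
      have h1 := hWY₁ _ _ h
      linarith [clamp_le_one s])
    (by
      intro s t h
      have h1 := hWY₂ _ _ h
      linarith [clamp_le_one s])
    (by
      intro s t h
      rcases cat_mem (X := X₁) (Z := Z₁) s with ⟨u, hu, -⟩ | ⟨u, hu, -⟩
      · rw [hu] at h
        have h1 := (hWX₁ _ _ h.symm).1
        linarith [clamp_le_one t]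
      · rw [hu] at h
        exact hWZ₁ _ _ h.symm)
    (by
      intro s t h
      rcases cat_mem (X := X₁) (Z := Z₁) s with ⟨u, hu, -⟩ | ⟨u, hu, -⟩
      · rw [hu] at h
        exact hX₁Y₂ _ _ h
      · rw [hu] at h
        exact hZ₁Y₂ _ _ h)
    (by
      intro s t h
      rcases cat_mem (X := X₂) (Z := Z₂) s with ⟨u, hu, -⟩ | ⟨u, hu, -⟩
      · rw [hu] at h
        have h1 := (hWX₂ _ _ h.symm).1
        linarith [clamp_le_one t]
      · rw [hu] at h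
        exact hWZ₂ _ _ h.symm)
    (by
      intro s t h
      rcases cat_mem (X := X₂) (Z := Z₂) s with ⟨u, hu, -⟩ | ⟨u, hu, -⟩
      · rw [hu] at h
        exact hX₂Y₁ _ _ h
      · rw [hu] at h
        exact hZ₂Y₁ _ _ h)
  have c12 : Cor (tr W (1 / 2)) (cat X₁ Z₁) := by
    intro s t h
    rcases cat_mem (X := X₁) (Z := Z₁) t with ⟨u, hu, hu'⟩ | ⟨u, hu, -⟩
    · rw [hu] at h
      have h1 := hWX₁ _ _ h
      refine ⟨?_, hu' h1.2⟩
      by_contra hcon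
      push Not at hcon
      have : 0 < max 0 (min s 1) := lt_max_of_lt_right (lt_min hcon one_pos)
      linarith [h1.1]
    · rw [hu] at h
      exact absurd h (hWZ₁ _ _)
  have c13 : Cor (tr W (1 / 2)) (cat X₂ Z₂) := by
    intro s t h
    rcases cat_mem (X := X₂) (Z := Z₂) t with ⟨u, hu, hu'⟩ | ⟨u, hu, -⟩
    · rw [hu] at h
      have h1 := hWX₂ _ _ h
      refine ⟨?_, hu' h1.2⟩
      by_contra hcon
      push Not at hcon
      have : 0 < max 0 (min s 1) := lt_max_of_lt_right (lt_min hcon one_pos)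
      linarith [h1.1]
    · rw [hu] at h
      exact absurd h (hWZ₂ _ _)
  have c23 : Cor (cat X₁ Z₁) (cat X₂ Z₂) := by
    intro s t h
    rcases cat_mem (X := X₁) (Z := Z₁) s with ⟨u, hu, hu'⟩ | ⟨u, hu, -⟩ <;>
      rcases cat_mem (X := X₂) (Z := Z₂) t with ⟨v, hv, hv'⟩ | ⟨v, hv, -⟩ <;>
      rw [hu, hv] at h
    · have h1 := hXX _ _ h
      exact ⟨hu' h1.1, hv' h1.2⟩
    · exact absurd h (hX₁Z₂ _ _)
    · exact absurd h.symm (hX₂Z₁ _ _)
    · exact absurd h (hZZ _ _)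
  have k1 := S_tr ce₁ ce₂ ce₃ (by rw [tr_zero, cat_zero]; exact hX₁0)
    (by rw [tr_zero, cat_zero]; exact hX₂0) c12 c23 c13.symm (a := 1) (b := 1 / 2) (c := 1 / 2)
    one_pos (by norm_num) (by norm_num) le_rfl (by norm_num) (by norm_num)
  have e1 : tr (tr W (1 / 2)) 1 = tr W (1 / 2) := by
    funext t
    simp only [tr, one_mul]
    rw [clamp_clamp]
  have e2 : ∀ {X Z : ℝ → ℂ}, (∀ t, X (max 0 (min t 1)) = X t) → tr (cat X Z) (1 / 2) = X := by
    intro X Z hcl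
    funext t
    simp only [tr, cat]
    have h1 := clamp_le_one t
    rw [if_pos (by linarith)]
    rw [show 2 * (1 / 2 * max 0 (min t 1)) = max 0 (min t 1) by ring]
    exact hcl t
  rw [e1, e2 clX₁, e2 clX₂] at k1
  rw [k1]
  exact key

end Pool.Agent.W135.Sefe
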