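import Pool.Agent.W135.Sefe.Arcs

/-!
# The two graphs, and the nonexistence of a simultaneous embedding

The vertices are `P = 0`, `Q = 1`, `p₀, p₁, p₂ = 2, 3, 4` and `q₀, q₁, q₂ = 5, 6, 7`.  The common
edges are `PQ`, `P pᵢ`, `Q qᵢ`; the first graph has moreover the edges `pᵢ qᵢ` and the second one
the edges `pᵢ qᵢ₊₁`.
-/

set_option autoImplicit false

namespace Pool.Agent.W135.Sefe

open Complex Set Pool.Agent.H858R3.Lift Pool.Agent.H858R3.Cross

/-- the first ends of the edges -/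
def eu : Fin 13 → Fin 8 := ![0, 0, 0, 0, 1, 1, 1, 2, 3, 4, 2, 3, 4]

/-- the second ends of the edges -/
def ev : Fin 13 → Fin 8 := ![1, 2, 3, 4, 5, 6, 7, 5, 6, 7, 6, 7, 5]

/-- the edges of the first graph -/
def in1 : Fin 13 → Bool := ![true, true, true, true, true, true, true, true, true, true,
  false, false, false]

/-- the edges of the second graph -/
def in2 : Fin 13 → Bool := ![true, true, true, true, true, true, true, false, false, false,
  true, true, true]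

/-- the graph with the edges `eu i, ev i` for `i` in the given set of indices -/
def gr (I : Fin 13 → Bool) : SimpleGraph (Fin 8) where
  Adj u v := ∃ i : Fin 13, I i = true ∧ s(u, v) = s(eu i, ev i)
  symm := ⟨by
    rintro u v ⟨i, hi, h⟩
    exact ⟨i, hi, by rw [Sym2.eq_swap]; exact h⟩⟩
  loopless := ⟨by
    rintro u ⟨i, -, h⟩
    have h1 : (s(eu i, ev i) : Sym2 (Fin 8)).IsDiag := by rw [← h]; simp
    rw [Sym2.mk_isDiag_iff] at h1
    clear h
    revert h1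
    revert i
    decide⟩

theorem mem_gr {I : Fin 13 → Bool} {e : Sym2 (Fin 8)} :
    e ∈ (gr I).edgeSet ↔ ∃ i, I i = true ∧ e = s(eu i, ev i) := by
  induction e with
  | _ u v => exact Iff.rfl

theorem edge_inj : ∀ i j : Fin 13, (s(eu i, ev i) : Sym2 (Fin 8)) = s(eu j, ev j) → i = j := by
  decide +kernel

/-- both edges belong to one of the two graphs -/
def compat (i j : Fin 13) : Bool := (in1 i && in1 j) || (in2 i && in2 j)

/-- the combinatorial conditions of `theta_star` -/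
def ne4 (i j : Fin 13) : Bool :=
  compat i j && decide (eu i ≠ eu j) && decide (eu i ≠ ev j) && decide (ev i ≠ eu j) &&
    decide (ev i ≠ ev j)

def fork (i j : Fin 13) : Bool :=
  compat i j && decide (i ≠ j) && decide (eu i = eu j) && decide (eu i ≠ ev j) &&
    decide (ev i ≠ eu j) && decide (ev i ≠ ev j)

def chain (i j : Fin 13) : Bool :=
  compat i j && decide (i ≠ j) && decide (ev i = eu j) && decide (eu i ≠ eu j) &&
    decide (eu i ≠ ev j) && decide (ev i ≠ ev j)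

def cond (x₁ x₂ z₁ z₂ y₁ y₂ : Fin 13) : Bool :=
  fork 0 x₁ && fork 0 x₂ && decide (ev x₁ = eu z₁) && decide (ev x₂ = eu z₂) &&
  chain 0 y₁ && chain 0 y₂ && decide (ev z₁ = ev y₁) && decide (ev z₂ = ev y₂) &&
  ne4 0 z₁ && ne4 0 z₂ && fork x₁ x₂ && ne4 x₁ z₂ && ne4 x₂ z₁ && ne4 x₁ y₂ && ne4 x₂ y₁ &&
  ne4 z₁ z₂ && ne4 z₁ y₂ && ne4 z₂ y₁

/-- a family of arcs as in a simultaneous embedding -/
structure Fam (q : Fin 8 → ℂ) (f : Fin 13 → ℝ → ℂ) : Prop where
  cont : ∀ i, Continuous (f i)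
  zero : ∀ i, f i 0 = q (eu i)
  one : ∀ i, f i 1 = q (ev i)
  cl : ∀ i t, f i (max 0 (min t 1)) = f i t
  common : ∀ i j, compat i j = true → i ≠ j → ∀ s t, f i s = f j t →
    ∃ w, (w = eu i ∧ s ≤ 0 ∨ w = ev i ∧ 1 ≤ s) ∧ (w = eu j ∧ t ≤ 0 ∨ w = ev j ∧ 1 ≤ t)

variable {q : Fin 8 → ℂ} {f : Fin 13 → ℝ → ℂ}

theorem ne_of_ne4 (F : Fam q f) {i j : Fin 13} (h : ne4 i j = true) : ∀ s t, f i s ≠ f j t := by
  intro s t hst
  simp only [ne4, Bool.and_eq_true, decide_eq_true_eq] at h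
  obtain ⟨⟨⟨⟨h0, h1⟩, h2⟩, h3⟩, h4⟩ := h
  have hij : i ≠ j := fun e => h1 (by rw [e])
  obtain ⟨w, ⟨h5, -⟩ | ⟨h5, -⟩, ⟨h6, -⟩ | ⟨h6, -⟩⟩ := F.common i j h0 hij s t hst
  · exact h1 (h5.symm.trans h6)
  · exact h2 (h5.symm.trans h6)
  · exact h3 (h5.symm.trans h6)
  · exact h4 (h5.symm.trans h6)

theorem cor_of_fork (F : Fam q f) {i j : Fin 13} (h : fork i j = true) : Cor (f i) (f j) := by
  intro s t hst
  simp only [fork, Bool.and_eq_true, decide_eq_true_eq] at h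
  obtain ⟨⟨⟨⟨⟨h0, hij⟩, h1⟩, h2⟩, h3⟩, h4⟩ := h
  obtain ⟨w, ⟨h5, h5'⟩ | ⟨h5, -⟩, ⟨h6, h6'⟩ | ⟨h6, -⟩⟩ := F.common i j h0 hij s t hst
  · exact ⟨h5', h6'⟩
  · exact absurd (h5.symm.trans h6) h2
  · exact absurd (h5.symm.trans h6) h3
  · exact absurd (h5.symm.trans h6) h4

theorem chain_one (F : Fam q f) {i j : Fin 13} (h : chain i j = true) :
    ∀ s t, f i s = f j t → 1 ≤ s := by
  intro s t hst
  simp only [chain, Bool.and_eq_true, decide_eq_true_eq] at h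
  obtain ⟨⟨⟨⟨⟨h0, hij⟩, h1⟩, h2⟩, h3⟩, h4⟩ := h
  obtain ⟨w, ⟨h5, h5'⟩ | ⟨h5, h5'⟩, ⟨h6, h6'⟩ | ⟨h6, -⟩⟩ := F.common i j h0 hij s t hst
  · exact absurd (h5.symm.trans h6) h2
  · exact absurd (h5.symm.trans h6) h3
  · exact h5'
  · exact absurd (h5.symm.trans h6) h4

theorem ap (F : Fam q f) (x₁ x₂ z₁ z₂ y₁ y₂ : Fin 13) (h : cond x₁ x₂ z₁ z₂ y₁ y₂ = true) :
    S (tr (f 0) (1 / 2)) (f x₁) (f x₂) =
      - S (tr (fun t => f 0 (1 - t)) (1 / 2)) (f y₁) (f y₂) := by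
  simp only [cond, Bool.and_eq_true, decide_eq_true_eq] at h
  obtain ⟨⟨⟨⟨⟨⟨⟨⟨⟨⟨⟨⟨⟨⟨⟨⟨⟨a1, a2⟩, a3⟩, a4⟩, a5⟩, a6⟩, a7⟩, a8⟩, a9⟩, a10⟩, a11⟩, a12⟩, a13⟩,
    a14⟩, a15⟩, a16⟩, a17⟩, a18⟩ := h
  have st : ∀ {i j : Fin 13}, fork i j = true → f i 0 = f j 0 := by
    intro i j h
    simp only [fork, Bool.and_eq_true, decide_eq_true_eq] at h
    rw [F.zero, F.zero, h.1.1.1.2]
  have ch : ∀ {i j : Fin 13}, chain i j = true → f i 1 = f j 0 := by
    intro i j h
    simp only [chain, Bool.and_eq_true, decide_eq_true_eq] at h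
    rw [F.one, F.zero, h.1.1.1.2]
  exact theta_star (F.cont 0) (F.cont x₁) (F.cont x₂) (F.cont z₁) (F.cont z₂) (F.cont y₁)
    (F.cont y₂) (st a1) (st a2) (by rw [F.one, F.zero, a3]) (by rw [F.one, F.zero, a4])
    (ch a5) (ch a6) (by rw [F.one, F.one, a7]) (by rw [F.one, F.one, a8])
    (F.cl x₁) (F.cl x₂) (cor_of_fork F a1) (cor_of_fork F a2) (chain_one F a5) (chain_one F a6)
    (ne_of_ne4 F a9) (ne_of_ne4 F a10) (cor_of_fork F a11) (ne_of_ne4 F a12) (ne_of_ne4 F a13)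
    (ne_of_ne4 F a14) (ne_of_ne4 F a15) (ne_of_ne4 F a16) (ne_of_ne4 F a17) (ne_of_ne4 F a18)

/-- the second arc of `PQ`, from `Q`, against the arcs `Q qᵢ` -/
theorem cor_rev (F : Fam q f) {y : Fin 13} (h : chain 0 y = true) :
    Cor (tr (fun t => f 0 (1 - t)) (1 / 2)) (f y) := by
  intro s t hst
  have h' := h
  simp only [chain, Bool.and_eq_true, decide_eq_true_eq] at h'
  obtain ⟨⟨⟨⟨⟨h0, hij⟩, h1⟩, h2⟩, h3⟩, h4⟩ := h'
  have hst' : f 0 (1 - 1 / 2 * max 0 (min s 1)) = f y t := hst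
  obtain ⟨w, ⟨h5, h5'⟩ | ⟨h5, h5'⟩, ⟨h6, h6'⟩ | ⟨h6, -⟩⟩ := F.common 0 y h0 hij _ _ hst'
  · exact absurd (h5.symm.trans h6) h2
  · exact absurd (h5.symm.trans h6) h3
  · refine ⟨?_, h6'⟩
    by_contra hcon
    push Not at hcon
    have : 0 < max 0 (min s 1) := lt_max_of_lt_right (lt_min hcon one_pos)
    linarith
  · exact absurd (h5.symm.trans h6) h4

theorem no_fam (F : Fam q f) : False := by
  have a01 := ap F 1 2 7 8 4 5 (by decide)
  have a12 := ap F 2 3 8 9 5 6 (by decide)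
  have a20 := ap F 3 1 9 7 6 4 (by decide)
  have b01 := ap F 1 2 10 11 5 6 (by decide)
  have b12 := ap F 2 3 11 12 6 4 (by decide)
  have b20 := ap F 3 1 12 10 4 5 (by decide)
  have c4 : chain 0 4 = true := by decide
  have c5 : chain 0 5 = true := by decide
  have c6 : chain 0 6 = true := by decide
  have st : ∀ {j : Fin 13}, chain 0 j = true →
      tr (fun t => f 0 (1 - t)) (1 / 2) 0 = f j 0 := by
    intro j h
    simp only [chain, Bool.and_eq_true, decide_eq_true_eq] at h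
    rw [tr_zero]
    simp only [sub_zero]
    rw [F.one, F.zero, h.1.1.1.2]
  refine no_cyclic (F := tr (fun t => f 0 (1 - t)) (1 / 2)) (A := f 4) (B := f 5) (C := f 6)
    (tr_cont (by have := F.cont 0; fun_prop) _) (F.cont 4) (F.cont 5) (F.cont 6)
    (st c4) (st c5) (st c6) (cor_rev F c4) (cor_rev F c5)
    (cor_of_fork F (by decide)) (cor_of_fork F (by decide)) (cor_of_fork F (by decide)) ?_ ?_
  · linear_combination a01 - b01
  · linear_combination a12 - b12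

theorem pt_of_range {G : SimpleGraph (Fin 8)} (D : Drawing G) {e f : Sym2 (Fin 8)}
    (he : e ∈ G.edgeSet) (hf : f ∈ G.edgeSet) (hef : e ≠ f) (hp : D.IsPlanar) {z : ℂ}
    (h1 : z ∈ D.arc e) (h2 : z ∈ D.arc f) : ∃ w, z = D.pt w ∧ w ∈ e ∧ w ∈ f := by
  have h3 := hp e he f hf hef
  have h4 : z ∈ Set.range D.pt := by
    by_contra hcon
    have : z ∈ D.crossings e f := ⟨h1, h2, hcon⟩
    rw [h3] at this
    exact this
  obtain ⟨w, rfl⟩ := h4
  exact ⟨w, rfl, D.avoid e he w h1, D.avoid f hf w h2⟩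

theorem no_sefe : ¬ AdmitsSEFE (gr in1) (gr in2) := by
  rintro ⟨D₁, D₂, P₁, P₂, hpt, harc⟩
  -- the arcs
  have hor : ∀ i, in1 i = true ∨ in2 i = true := by decide
  have m1 : ∀ i, in1 i = true → s(eu i, ev i) ∈ (gr in1).edgeSet := fun i hi => mem_gr.2 ⟨i, hi, rfl⟩
  have m2 : ∀ i, in2 i = true → s(eu i, ev i) ∈ (gr in2).edgeSet := fun i hi => mem_gr.2 ⟨i, hi, rfl⟩
  set a : Fin 13 → Set ℂ := fun i =>
    if in1 i = true then D₁.arc s(eu i, ev i) else D₂.arc s(eu i, ev i) with ha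
  have a1 : ∀ i, in1 i = true → a i = D₁.arc s(eu i, ev i) := fun i hi => by
    rw [ha]; simp only [hi, if_true]
  have a2 : ∀ i, in2 i = true → a i = D₂.arc s(eu i, ev i) := fun i hi => by
    rw [ha]
    simp only
    split_ifs with h
    · exact harc _ (m1 i h) (m2 i hi)
    · rfl
  have hq : D₁.pt = D₂.pt := funext hpt
  have hA : ∀ i, IsArc (a i) (D₁.pt (eu i)) (D₁.pt (ev i)) := by
    intro i
    rcases hor i with h | h
    · rw [a1 i h]; exact D₁.isArc _ _ (m1 i h)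
    · rw [a2 i h, hq]; exact D₂.isArc _ _ (m2 i h)
  choose γ hγ1 hγ2 using hA
  apply no_fam (q := D₁.pt) (f := fun i => (γ i).extend)
  have inj : ∀ i (s t : ℝ), s ∈ Icc (0 : ℝ) 1 → t ∈ Icc (0 : ℝ) 1 →
      (γ i).extend s = (γ i).extend t → s = t := by
    intro i s t hs ht h
    rw [(γ i).extend_apply hs, (γ i).extend_apply ht] at h
    exact congrArg Subtype.val (hγ1 i h)
  have hcl : ∀ i (t : ℝ), (γ i).extend (max 0 (min t 1)) = (γ i).extend t := by
    intro i t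
    rcases le_total t 0 with h | h
    · rw [(γ i).extend_of_le_zero h, min_eq_left (by linarith), max_eq_left h,
        (γ i).extend_zero]
    · rcases le_total t 1 with h' | h'
      · rw [min_eq_left h', max_eq_right h]
      · rw [(γ i).extend_of_one_le h', min_eq_right h', max_eq_right zero_le_one,
          (γ i).extend_one]
  have mem : ∀ i (s : ℝ), (γ i).extend s ∈ a i := by
    intro i s
    rw [← hγ2 i, ← (γ i).extend_range]; exact ⟨s, rfl⟩
  have e0 : ∀ i (s : ℝ), (γ i).extend s = D₁.pt (eu i) → s ≤ 0 := by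
    intro i s h
    by_contra hcon
    push Not at hcon
    have h1 := inj i (max 0 (min s 1)) 0 ⟨le_max_left _ _, clamp_le_one s⟩ (by simp)
      (by rw [hcl, h, (γ i).extend_zero])
    have : 0 < max 0 (min s 1) := lt_max_of_lt_right (lt_min hcon one_pos)
    linarith
  have e1 : ∀ i (s : ℝ), (γ i).extend s = D₁.pt (ev i) → 1 ≤ s := by
    intro i s h
    by_contra hcon
    push Not at hcon
    have h1 := inj i (max 0 (min s 1)) 1 ⟨le_max_left _ _, clamp_le_one s⟩ (by simp)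
      (by rw [hcl, h, (γ i).extend_one])
    have : max 0 (min s 1) < 1 := max_lt one_pos (lt_of_le_of_lt (min_le_left _ _) hcon)
    linarith
  have comm : ∀ i j, compat i j = true → i ≠ j → ∀ z, z ∈ a i → z ∈ a j →
      ∃ w, z = D₁.pt w ∧ w ∈ (s(eu i, ev i) : Sym2 (Fin 8)) ∧ w ∈ (s(eu j, ev j) : Sym2 (Fin 8)) := by
    intro i j hc hij z hzi hzj
    have hne : (s(eu i, ev i) : Sym2 (Fin 8)) ≠ s(eu j, ev j) := fun h => hij (edge_inj i j h)
    simp only [compat, Bool.or_eq_true, Bool.and_eq_true] at hc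
    rcases hc with ⟨h1, h2⟩ | ⟨h1, h2⟩
    · rw [a1 i h1] at hzi
      rw [a1 j h2] at hzj
      exact pt_of_range D₁ (m1 i h1) (m1 j h2) hne P₁ hzi hzj
    · rw [a2 i h1] at hzi
      rw [a2 j h2] at hzj
      rw [hq]
      exact pt_of_range D₂ (m2 i h1) (m2 j h2) hne P₂ hzi hzj
  refine ⟨fun i => (γ i).continuous_extend, fun i => (γ i).extend_zero,
    fun i => (γ i).extend_one, hcl, ?_⟩
  intro i j hc hij s t hst
  obtain ⟨w, hw, hwi, hwj⟩ := comm i j hc hij _ (mem i s) (by rw [hst]; exact mem j t)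
  refine ⟨w, ?_, ?_⟩
  · rw [Sym2.mem_iff] at hwi
    rcases hwi with rfl | rfl
    · exact Or.inl ⟨rfl, e0 i s hw⟩
    · exact Or.inr ⟨rfl, e1 i s hw⟩
  · have hw' : (γ j).extend t = D₁.pt w := hst.symm.trans hw
    rw [Sym2.mem_iff] at hwj
    rcases hwj with rfl | rfl
    · exact Or.inl ⟨rfl, e0 j t hw'⟩
    · exact Or.inr ⟨rfl, e1 j t hw'⟩

end Pool.Agent.W135.Sefe
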