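import Pool.Agent.H858R3.PolyDraw
import Pool.Agent.W135.Sefe.Graph

/-!
# A drawing of the union with `siocr = 0`
-/

set_option autoImplicit false

namespace Pool.Agent.W135.Sefe

open Complex Set Pool.Agent.H858R3.Poly Pool.Agent.H858R3.PolyDraw

/-- the points of the vertices -/
def pos : Fin 8 → P :=
  ![(9, 5), (11, 11), (9, 1), (7, 8), (6, 4), (11, 10), (0, 9), (2, 2)]

/-- the bends of the edges -/
def bends : Fin 13 → List P :=
  ![[(-4, -3)], [], [], [], [], [], [(-4, 9)], [], [], [], [], [(13, 0)], [(4, 7)]]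

/-- the segments of an edge -/
def L (i : Fin 13) : List (P × P) := segs (pos (eu i)) (bends i ++ [pos (ev i)])

def selfB (i : Fin 13) : Bool :=
  good (pos (eu i)) (bends i ++ [pos (ev i)]) &&
    (L i).all fun s => decide (s.1 ≠ s.2) && (L i).all fun s' => decide (s = s') || sep s s'

def avoidB (i : Fin 13) (w : Fin 8) : Bool :=
  decide (w = eu i) || decide (w = ev i) || (L i).all fun s => decide (os s (pos w) ≠ 0)

def cornerB (i j : Fin 13) (s t : P × P) (w : Fin 8) : Bool :=
  (decide (w = eu i) || decide (w = ev i)) && (decide (w = eu j) || decide (w = ev j)) &&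
    cornerAt (pos w) s t

def pairB (i j : Fin 13) : Bool :=
  (L i).all fun s => (L j).all fun t => disj s t || cross s t ||
    (cornerB i j s t (eu i) || cornerB i j s t (ev i))

def indep (i j : Fin 13) : Bool :=
  decide (eu i ≠ eu j) && decide (eu i ≠ ev j) && decide (ev i ≠ eu j) && decide (ev i ≠ ev j)

def evenB (i j : Fin 13) : Bool :=
  decide (Even (((L i).toFinset ×ˢ (L j).toFinset).filter (fun q => cross q.1 q.2 = true)).card)

theorem pos_inj : ∀ u v, pos u = pos v → u = v := by decide +kernel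

theorem self_ok : ∀ i, selfB i = true := by decide +kernel

theorem avoid_ok : ∀ i w, avoidB i w = true := by decide +kernel

theorem pair_ok : ∀ i j, i ≠ j → pairB i j = true := by decide +kernel

theorem even_ok : ∀ i j, compat i j = true → indep i j = true → evenB i j = true := by
  decide +kernel

theorem self1 (i : Fin 13) : good (pos (eu i)) (bends i ++ [pos (ev i)]) = true := by
  have := self_ok i
  simp only [selfB, Bool.and_eq_true] at this
  exact this.1

theorem self2 (i : Fin 13) : ∀ s ∈ (L i).toFinset, s.1 ≠ s.2 ∧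
    ∀ s' ∈ (L i).toFinset, s ≠ s' → sep s s' = true := by
  have := self_ok i
  simp only [selfB, Bool.and_eq_true, List.all_eq_true, decide_eq_true_eq,
      Bool.or_eq_true] at this
  intro s hs
  rw [List.mem_toFinset] at hs
  refine ⟨(this.2 s hs).1, fun s' hs' hne => ?_⟩
  rw [List.mem_toFinset] at hs'
  exact ((this.2 s hs).2 s' hs').resolve_left hne

/-- the arcs of the drawing -/
def theArc (e : Sym2 (Fin 8)) : Set ℂ :=
  {z | ∃ i : Fin 13, e = s(eu i, ev i) ∧ z ∈ arcL (L i)}

theorem theArc_eq (i : Fin 13) : theArc s(eu i, ev i) = arcL (L i) := by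
  ext z
  constructor
  · rintro ⟨j, hj, hz⟩
    rw [edge_inj i j hj]; exact hz
  · intro hz; exact ⟨i, rfl, hz⟩

theorem arcL_isArc (i : Fin 13) : IsArc (arcL (L i)) (cp (pos (eu i))) (cp (pos (ev i))) := by
  have h1 := self1 i
  unfold L
  have key : ∀ (p : P) (l : List P) (q : P), good p (l ++ [q]) = true →
      IsArc (arcL (segs p (l ++ [q]))) (cp p) (cp q) := by
    intro p l q hg
    cases l with
    | nil =>
      obtain ⟨γ, g1, g2⟩ := arc_of_good [] p q hg
      exact ⟨γ, g1, g2⟩
    | cons r l =>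
      obtain ⟨γ, g1, g2⟩ := arc_of_good (l ++ [q]) p r hg
      have e : lastP p (r :: (l ++ [q])) = q := lastP_append r l q
      rw [show (r :: l ++ [q]) = r :: (l ++ [q]) from rfl, ← g2]
      refine ⟨γ.cast rfl (by rw [e]), ?_, ?_⟩
      · exact g1
      · rfl
  exact key _ _ _ h1

theorem arcL_avoid {i : Fin 13} {w : Fin 8} (hw : cp (pos w) ∈ arcL (L i)) :
    w = eu i ∨ w = ev i := by
  obtain ⟨s, hs, hz⟩ := hw
  have := avoid_ok i w
  simp only [avoidB, Bool.or_eq_true, List.all_eq_true, decide_eq_true_eq] at this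
  rcases this with h | h
  · exact h
  · exfalso
    apply h s hs
    have := orr_seg hz
    rw [orr_cp] at this
    unfold os
    exact_mod_cast this

/-- a common point of two arcs is a crossing of two segments or a common end -/
theorem common_pt {i j : Fin 13} (hij : i ≠ j) {z : ℂ} (h1 : z ∈ arcL (L i))
    (h2 : z ∈ arcL (L j)) :
    (∃ s ∈ L i, ∃ t ∈ L j, cross s t = true ∧ z ∈ sg s ∧ z ∈ sg t) ∨
    ∃ w, z = cp (pos w) ∧ (w = eu i ∨ w = ev i) ∧ (w = eu j ∨ w = ev j) := by
  obtain ⟨s, hs, hzs⟩ := h1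
  obtain ⟨t, ht, hzt⟩ := h2
  have := pair_ok i j hij
  simp only [pairB, List.all_eq_true, Bool.or_eq_true] at this
  rcases this s hs t ht with (h | h) | h
  · exact absurd hzt (Set.disjoint_left.1 (disj_sound h) hzs)
  · exact Or.inl ⟨s, hs, t, ht, h, hzs, hzt⟩
  · right
    have key : ∀ w, cornerB i j s t w = true →
        ∃ w, z = cp (pos w) ∧ (w = eu i ∨ w = ev i) ∧ (w = eu j ∨ w = ev j) := by
      intro w hw
      simp only [cornerB, Bool.and_eq_true, Bool.or_eq_true, decide_eq_true_eq] at hw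
      exact ⟨w, corner_sound hw.2 ⟨hzs, hzt⟩, hw.1.1, hw.1.2⟩
    rcases h with h | h
    · exact key _ h
    · exact key _ h

theorem inter_finite {i j : Fin 13} (hij : i ≠ j) : (arcL (L i) ∩ arcL (L j)).Finite := by
  classical
  have hsub : arcL (L i) ∩ arcL (L j) ⊆
      (⋃ q ∈ ((L i).toFinset ×ˢ (L j).toFinset).filter (fun q => cross q.1 q.2 = true),
        (sg q.1 ∩ sg q.2)) ∪ Set.range (fun w => cp (pos w)) := by
    rintro z ⟨h1, h2⟩
    rcases common_pt hij h1 h2 with ⟨s, hs, t, ht, hc, hzs, hzt⟩ | ⟨w, hw, -⟩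
    · left
      simp only [Set.mem_iUnion]
      refine ⟨(s, t), ?_, hzs, hzt⟩
      rw [Finset.mem_filter, Finset.mem_product, List.mem_toFinset, List.mem_toFinset]
      exact ⟨⟨hs, ht⟩, hc⟩
    · right
      exact ⟨w, hw.symm⟩
  apply Set.Finite.subset _ hsub
  apply Set.Finite.union
  · apply Set.Finite.biUnion (Finset.finite_toSet _)
    intro q hq
    rw [Finset.mem_coe, Finset.mem_filter] at hq
    obtain ⟨z, hz, -⟩ := cross_sound hq.2
    rw [hz]
    exact Set.finite_singleton z
  · exact Set.finite_range _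

/-- the drawing of a graph with the 13 edges -/
noncomputable def draw {G : SimpleGraph (Fin 8)}
    (hG : ∀ e, e ∈ G.edgeSet ↔ ∃ i : Fin 13, e = s(eu i, ev i)) : Drawing G where
  pt v := cp (pos v)
  arc := theArc
  pt_inj u v huv := pos_inj u v (cp_inj huv)
  isArc := by
    intro u v huv
    obtain ⟨i, hi⟩ := (hG s(u, v)).1 huv
    rw [hi, theArc_eq]
    rw [Sym2.eq_iff] at hi
    rcases hi with ⟨h1, h2⟩ | ⟨h1, h2⟩
    · rw [h1, h2]; exact arcL_isArc i
    · rw [h1, h2]
      obtain ⟨γ, hγ, hr⟩ := arcL_isArc i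
      exact ⟨γ.symm, fun s t hst => unitInterval.symm_bijective.1 (hγ hst), by
        rw [Path.symm_range]; exact hr⟩
  avoid := by
    intro e he w hw
    obtain ⟨i, rfl⟩ := (hG e).1 he
    rw [theArc_eq] at hw
    rw [Sym2.mem_iff]
    exact arcL_avoid hw
  finite := by
    intro e he f hf hef
    obtain ⟨i, rfl⟩ := (hG e).1 he
    obtain ⟨j, rfl⟩ := (hG f).1 hf
    have hij : i ≠ j := fun hh => hef (by rw [hh])
    rw [theArc_eq, theArc_eq]
    exact inter_finite hij
  proper := by
    intro e he f hf hef z hz hzn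
    obtain ⟨i, rfl⟩ := (hG e).1 he
    obtain ⟨j, rfl⟩ := (hG f).1 hf
    have hij : i ≠ j := fun hh => hef (by rw [hh])
    rw [theArc_eq, theArc_eq] at hz ⊢
    rcases common_pt hij hz.1 hz.2 with ⟨s, hs, t, ht, hc, hzs, hzt⟩ | ⟨w, hw, -⟩
    · rw [← arcOf_toFinset, ← arcOf_toFinset]
      exact proper_sound (l := (L i).toFinset) (m := (L j).toFinset) (self2 i) (self2 j)
        (List.mem_toFinset.2 hs) (List.mem_toFinset.2 ht) hc hzs hzt
    · exact absurd ⟨w, hw.symm⟩ hzn

theorem draw_even {G : SimpleGraph (Fin 8)}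
    (hG : ∀ e, e ∈ G.edgeSet ↔ ∃ i : Fin 13, e = s(eu i, ev i)) {i j : Fin 13}
    (hc : compat i j = true) (hi : Independent s(eu i, ev i) s(eu j, ev j)) :
    Even ((draw hG).crossings s(eu i, ev i) s(eu j, ev j)).ncard := by
  classical
  have hi' : indep i j = true := by
    simp only [indep, Bool.and_eq_true, decide_eq_true_eq]
    have h1 := hi (eu i) (by simp)
    have h2 := hi (ev i) (by simp)
    simp only [Sym2.mem_iff, not_or] at h1 h2
    exact ⟨⟨⟨h1.1, h1.2⟩, h2.1⟩, h2.2⟩
  have hij : i ≠ j := by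
    rintro rfl
    simp [indep] at hi'
  have hcr : (draw hG).crossings s(eu i, ev i) s(eu j, ev j) = arcL (L i) ∩ arcL (L j) := by
    ext z
    have ai : (draw hG).arc s(eu i, ev i) = arcL (L i) := theArc_eq i
    have aj : (draw hG).arc s(eu j, ev j) = arcL (L j) := theArc_eq j
    constructor
    · rintro ⟨h1, h2, -⟩
      rw [ai] at h1
      rw [aj] at h2
      exact ⟨h1, h2⟩
    · rintro ⟨h1, h2⟩
      refine ⟨by rw [ai]; exact h1, by rw [aj]; exact h2, ?_⟩
      rintro ⟨w, rfl⟩
      have h3 : w = eu i ∨ w = ev i := arcL_avoid h1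
      have h4 : w = eu j ∨ w = ev j := arcL_avoid h2
      exact hi w (by rw [Sym2.mem_iff]; exact h3) (by rw [Sym2.mem_iff]; exact h4)
  rw [hcr, ← arcOf_toFinset, ← arcOf_toFinset, ncard_inter (self2 i) (self2 j)]
  · have := even_ok i j hc hi'
    simpa [evenB] using this
  · intro s hs t ht
    rw [List.mem_toFinset] at hs ht
    have := pair_ok i j hij
    simp only [pairB, List.all_eq_true, Bool.or_eq_true] at this
    rcases this s hs t ht with (h | h) | h
    · exact Or.inl h
    · exact Or.inr h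
    · exfalso
      have key : ∀ w, cornerB i j s t w = true → False := by
        intro w hw
        simp only [cornerB, Bool.and_eq_true, Bool.or_eq_true, decide_eq_true_eq] at hw
        exact hi w (by rw [Sym2.mem_iff]; exact hw.1.1) (by rw [Sym2.mem_iff]; exact hw.1.2)
      rcases h with h | h
      · exact key _ h
      · exact key _ h

theorem iocr_zero {G : SimpleGraph (Fin 8)}
    (hG : ∀ e, e ∈ G.edgeSet ↔ ∃ i : Fin 13, e = s(eu i, ev i)) {I : Fin 13 → Bool}
    (hI : ∀ i j, I i = true → I j = true → compat i j = true) :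
    (draw hG).iocr (gr I) = 0 := by
  unfold Drawing.iocr
  convert Set.ncard_empty (Sym2 (Sym2 (Fin 8)))
  rw [Set.eq_empty_iff_forall_notMem]
  rintro p ⟨e, f, -, he, hf, hi, hodd⟩
  obtain ⟨i, hi1, rfl⟩ := mem_gr.1 he
  obtain ⟨j, hj1, rfl⟩ := mem_gr.1 hf
  rw [← Nat.not_even_iff_odd] at hodd
  exact hodd (draw_even hG (hI i j hi1 hj1) hi)

theorem mem_sup {e : Sym2 (Fin 8)} : e ∈ (gr in1 ⊔ gr in2).edgeSet ↔ ∃ i, e = s(eu i, ev i) := by
  rw [SimpleGraph.edgeSet_sup, Set.mem_union, mem_gr, mem_gr]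
  constructor
  · rintro (⟨i, -, h⟩ | ⟨i, -, h⟩) <;> exact ⟨i, h⟩
  · rintro ⟨i, h⟩
    have hor : ∀ i, in1 i = true ∨ in2 i = true := by decide
    rcases hor i with hi | hi
    · exact Or.inl ⟨i, hi, h⟩
    · exact Or.inr ⟨i, hi, h⟩

theorem siocrOf_zero : siocrOf (gr in1) (gr in2) (draw (fun _ => mem_sup)) = 0 := by
  unfold siocrOf
  rw [iocr_zero _ (by decide), iocr_zero _ (by decide)]

end Pool.Agent.W135.Sefe
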